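import Pool.Agent.Y453.HB.Stm

/-!
# Project HB: operations with uniformly convergent sequences of homeomorphisms (helper309)
-/

set_option autoImplicit false
set_option linter.all false

open Set Filter Topology Function

namespace Pool.Agent.Y309.HB

open Pool.Agent.Y453.HB

theorem uc_mul {n : ℕ} {u v : ℕ → (E n ≃ₜ E n)} {g h : E n ≃ₜ E n} (hu : UConv u g)
    (hv : UConv v h) : UConv (fun k => u k * v k) (g * h) := by
  obtain ⟨hu1, hu2, hu3⟩ := hu
  obtain ⟨hv1, hv2, hv3⟩ := hv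
  refine ⟨?_, hu2.comp hv2, ?_⟩
  · rw [Metric.tendstoUniformly_iff] at hu1 hv1 ⊢
    intro ε hε
    obtain ⟨δ, hδ, hg⟩ := Metric.uniformContinuous_iff.1 hu2 (ε / 2) (half_pos hε)
    filter_upwards [hu1 (ε / 2) (half_pos hε), hv1 δ hδ] with k h1 h2 x
    rw [Pool.Agent.Y453.HB.mul_apply, Pool.Agent.Y453.HB.mul_apply]
    calc dist (g (h x)) (u k (v k x)) ≤ dist (g (h x)) (g (v k x)) + dist (g (v k x)) (u k (v k x)) :=
          dist_triangle _ _ _
      _ < ε / 2 + ε / 2 := add_lt_add (hg (h2 x)) (h1 (v k x))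
      _ = ε := add_halves ε
  · rw [mul_inv_rev]
    exact hv3.comp hu3

theorem uc_inv {n : ℕ} {u : ℕ → (E n ≃ₜ E n)} {g : E n ≃ₜ E n} (hu : UConv u g) :
    UConv (fun k => (u k)⁻¹) g⁻¹ := by
  obtain ⟨hu1, hu2, hu3⟩ := hu
  refine ⟨?_, hu3, by rwa [inv_inv]⟩
  rw [Metric.tendstoUniformly_iff] at hu1 ⊢
  intro ε hε
  obtain ⟨δ, hδ, hg⟩ := Metric.uniformContinuous_iff.1 hu3 ε hε
  filter_upwards [hu1 δ hδ] with k h1 x
  have h2 := h1 ((u k)⁻¹ x)
  rw [apply_inv_self] at h2
  have h3 := hg h2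
  rw [inv_apply_self, dist_comm] at h3
  exact h3

theorem uc_one {n : ℕ} : UConv (fun _ => (1 : E n ≃ₜ E n)) 1 := by
  refine ⟨?_, uniformContinuous_id, ?_⟩
  · rw [Metric.tendstoUniformly_iff]
    intro ε hε
    exact Eventually.of_forall fun k x => by rwa [dist_self]
  · rw [inv_one]
    exact uniformContinuous_id

theorem uc_pow {n : ℕ} {u : ℕ → (E n ≃ₜ E n)} {g : E n ≃ₜ E n} (hu : UConv u g) (m : ℕ) :
    UConv (fun k => u k ^ m) (g ^ m) := by
  induction m with
  | zero => simpa using uc_one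
  | succ m ih =>
    simp only [pow_succ]
    exact uc_mul ih hu

theorem uc_zpow {n : ℕ} {u : ℕ → (E n ≃ₜ E n)} {g : E n ≃ₜ E n} (hu : UConv u g) (m : ℤ) :
    UConv (fun k => u k ^ m) (g ^ m) := by
  cases m with
  | ofNat m =>
    simp only [Int.ofNat_eq_natCast, zpow_natCast]
    exact uc_pow hu m
  | negSucc m =>
    simp only [zpow_negSucc]
    exact uc_inv (uc_pow hu (m + 1))

theorem uc_smul {n : ℕ} (s : ℝ) : UniformContinuous (fun x : E n => s • x) :=
  (lipschitzWith_smul s).uniformContinuous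

theorem uc_dil {n : ℕ} (s : ℝ) (hs : 0 < s) :
    UConv (fun _ => (dil s hs : E n ≃ₜ E n)) (dil s hs) := by
  refine ⟨?_, uc_smul s, uc_smul s⁻¹⟩
  rw [Metric.tendstoUniformly_iff]
  intro ε hε
  exact Eventually.of_forall fun k x => by rwa [dist_self]

theorem uc_cpt {n : ℕ} (g : E n ≃ₜ E n) (K : Set (E n)) (hK : IsCompact K)
    (hg : ∀ x, x ∉ K → g x = x) : UniformContinuous g := by
  have h1 : Continuous fun x : E n => g x - x := g.continuous.sub continuous_id
  have h2 : HasCompactSupport fun x : E n => g x - x :=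
    HasCompactSupport.intro hK fun x hx => by rw [hg x hx, sub_self]
  have h3 := (h2.uniformContinuous_of_continuous h1).add uniformContinuous_id
  refine h3.congr fun x => ?_
  simp

theorem uc : S_UC := by
  intro n
  refine ⟨fun u v g h => uc_mul, fun u g => uc_inv, fun u g hu m => uc_zpow hu m, uc_dil,
    fun g K hK hg => ⟨uc_cpt g K hK hg, uc_cpt g⁻¹ K hK fun x hx => ?_⟩⟩
  have h := inv_apply_self g x
  rwa [hg x hx] at h

end Pool.Agent.Y309.HB
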